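import Pool.Agent.ZES.StmtsG

/-!
# ZES squad (MP_160b6c_nt), row LNZ: a degenerate direction is contained in Z
-/

set_option autoImplicit false

namespace Pool.Agent.ZES.H76

open Pool.Agent.ZES
open scoped BigOperators

/-- the derivative along a line -/
theorem line_deriv {V : Type} [NormedAddCommGroup V] [NormedSpace ℂ V] {f : V → ℂ}
    (hf : Differentiable ℂ f) (z v : V) (t : ℂ) :
    HasDerivAt (fun t : ℂ => f (z + t • v)) (fderiv ℂ f (z + t • v) v) t := by
  have h1 : HasDerivAt (fun t : ℂ => z + t • v) v t := by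
    have h2 : HasDerivAt (fun t : ℂ => t • v) ((1 : ℂ) • v) t := (hasDerivAt_id t).smul_const v
    rw [one_smul] at h2
    exact h2.const_add z
  exact (hf (z + t • v)).hasFDerivAt.comp_hasDerivAt t h1

theorem line_diff {V : Type} [NormedAddCommGroup V] [NormedSpace ℂ V] {f : V → ℂ}
    (hf : Differentiable ℂ f) (z v : V) : Differentiable ℂ (fun t : ℂ => f (z + t • v)) :=
  fun t => (line_deriv hf z v t).differentiableAt

theorem line_diff' {V : Type} [NormedAddCommGroup V] [NormedSpace ℂ V] {f : V → ℂ}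
    (hf : Differentiable ℂ f) (z v : V) :
    Differentiable ℂ (fun t : ℂ => fderiv ℂ f (z + t • v) v) := by
  have h1 : (fun t : ℂ => fderiv ℂ f (z + t • v) v) = deriv (fun t : ℂ => f (z + t • v)) := by
    funext t
    exact (line_deriv hf z v t).deriv.symm
  rw [h1]
  have h2 := (line_diff hf z v).differentiableOn (s := Set.univ)
  exact differentiableOn_univ.1 (h2.deriv isOpen_univ)

/-- **Row LNZ.** -/
theorem lnz (hPWD : PwdStmt) (hTAN : TanStmt) (hDER : DerStmt) (hGEN : GenStmt)
    (hODE : OdeStmt) : LnzStmt := by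
  classical
  intro V _ _ E hE Γ m hm hS v z0 hz0 hd0 z hz t
  have tan := hTAN V E hE Γ m hm hS v z0 hz0 hd0
  obtain ⟨hdif, hfin, -⟩ := hPWD V E hE m
  have hfin2 : Module.Finite ℂ ↥(E ^ m ⊓ Van (Γ : Set V)) :=
    Submodule.finiteDimensional_of_le (inf_le_left)
  obtain ⟨s, f, hfA, hspan, hmul⟩ := hGEN V (E ^ m ⊓ Van (Γ : Set V)) (E ^ m) hfin2
  have hΓ : ∀ x ∈ Γ, x ∈ Zr E (Γ : Set V) m := by
    intro x hx g hg
    exact hg.2 x hx
  obtain ⟨q, hqE, hq⟩ := hE.nbp z
  have hqd : Differentiable ℂ q := hE.dif q hqE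
  have hD : ∀ i, (fun x => fderiv ℂ (f i) x v * q x ^ m
      - (m : ℂ) * f i x * q x ^ (m - 1) * fderiv ℂ q x v) ∈ (E ^ m ⊓ Van (Γ : Set V)) * E ^ m := by
    intro i
    refine hS ⟨hDER V E hE m (f i) (hfA i).1 q hqE v, ?_⟩
    intro x hx
    show fderiv ℂ (f i) x v * q x ^ m - (m : ℂ) * f i x * q x ^ (m - 1) * fderiv ℂ q x v = 0
    rw [tan x (hΓ x hx) (f i) (hfA i), (hfA i).2 x hx]
    ring
  choose c hcE hc using fun i => hmul _ (hD i)
  have hfd : ∀ i, Differentiable ℂ (f i) := fun i => hdif _ (hfA i).1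
  have key := hODE s (fun i t => f i (z + t • v)) (fun t => q (z + t • v) ^ m)
    (fun i j t => c i j (z + t • v) + if i = j then
      (m : ℂ) * q (z + t • v) ^ (m - 1) * fderiv ℂ q (z + t • v) v else 0)
    (fun i => line_diff (hfd i) z v) ((line_diff hqd z v).pow m) ?_ ?_ ?_ ?_
  · intro g hg
    obtain ⟨b, hb⟩ := hspan g hg
    rw [hb]
    show ∑ i, b i * f i (z + t • v) = 0
    refine Finset.sum_eq_zero fun i _ => ?_
    rw [key i t, mul_zero]
  · intro i j
    refine (line_diff (hdif _ (hcE i j)) z v).add ?_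
    by_cases hij : i = j
    · simp only [hij, if_true]
      exact (((line_diff hqd z v).pow (m - 1)).const_mul (m : ℂ)).mul (line_diff' hqd z v)
    · simp only [hij, if_false]
      exact differentiable_const 0
  · show q (z + (0 : ℂ) • v) ^ m ≠ 0
    rw [zero_smul, add_zero]
    exact pow_ne_zero m hq
  · intro i
    show f i (z + (0 : ℂ) • v) = 0
    rw [zero_smul, add_zero]
    exact hz (f i) (hfA i)
  · intro i t
    have h1 : deriv (fun t : ℂ => f i (z + t • v)) t = fderiv ℂ (f i) (z + t • v) v :=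
      (line_deriv (hfd i) z v t).deriv
    have h2 : fderiv ℂ (f i) (z + t • v) v * q (z + t • v) ^ m
      - (m : ℂ) * f i (z + t • v) * q (z + t • v) ^ (m - 1) * fderiv ℂ q (z + t • v) v
      = ∑ j, f j (z + t • v) * c i j (z + t • v) := congrFun (hc i) (z + t • v)
    show q (z + t • v) ^ m * deriv (fun t : ℂ => f i (z + t • v)) t = ∑ j,
      (c i j (z + t • v) + if i = j then
        (m : ℂ) * q (z + t • v) ^ (m - 1) * fderiv ℂ q (z + t • v) v else 0) * f j (z + t • v)
    rw [h1]
    have h3 : ∑ j, (c i j (z + t • v) + if i = j then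
        (m : ℂ) * q (z + t • v) ^ (m - 1) * fderiv ℂ q (z + t • v) v else 0) * f j (z + t • v)
        = ∑ j, f j (z + t • v) * c i j (z + t • v)
          + (m : ℂ) * q (z + t • v) ^ (m - 1) * fderiv ℂ q (z + t • v) v * f i (z + t • v) := by
      simp only [add_mul, Finset.sum_add_distrib, ite_mul, zero_mul, Finset.sum_ite_eq,
        Finset.mem_univ, if_true]
      congr 1
      refine Finset.sum_congr rfl fun j _ => ?_
      ring
    rw [h3, ← h2]
    ring

end Pool.Agent.ZES.H76
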