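import Pool.Agent.ZES.StmtsB

/-!
# ZES squad (MP_160b6c_nt), row TRN: translation of theta functions
-/

set_option autoImplicit false

namespace Pool.Agent.ZES.H76

open Pool.Agent.ZES
open scoped BigOperators InnerProductSpace

/-- **Row TRN.** -/
theorem trn (hBNW : BnwStmt) : TrnStmt := by
  intro V _ _ _ L χ hL n f hf lam
  obtain ⟨C, hC, hCf⟩ := hBNW V L χ hL n f hf
  obtain ⟨hfd, hfp⟩ := hf
  have hE : Differentiable ℂ fun x : V =>
      Complex.exp (-((Real.pi : ℂ) * (n : ℂ)) * inner ℂ lam x) := by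
    have h1 : Differentiable ℂ fun x : V => innerSL ℂ lam x := (innerSL ℂ lam).differentiable
    exact (h1.const_mul (-((Real.pi : ℂ) * (n : ℂ)))).cexp
  have hF : Differentiable ℂ fun x : V => f (x + lam) :=
    hfd.comp (differentiable_id.add_const lam)
  refine ⟨fun x => f (x + lam) * Complex.exp (-((Real.pi : ℂ) * (n : ℂ)) * inner ℂ lam x),
    C * Real.exp (Real.pi * n / 2 * ‖lam‖ ^ 2), hF.mul hE, by positivity, ?_, ?_, ?_, ?_⟩
  · intro x
    rw [mul_eq_zero]
    exact ⟨fun h => h.resolve_right (Complex.exp_ne_zero _), Or.inl⟩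
  · intro ω hω x
    have h1 : f (x + ω + lam) = χ ω ^ n * al (Real.pi * (n : ℝ)) ω (x + lam) * f (x + lam) := by
      rw [← hfp ω hω (x + lam)]
      congr 1
      abel
    show f (x + ω + lam) * Complex.exp (-((Real.pi : ℂ) * (n : ℂ)) * inner ℂ lam (x + ω)) = _ *
      (f (x + lam) * Complex.exp (-((Real.pi : ℂ) * (n : ℂ)) * inner ℂ lam x))
    rw [h1]
    unfold al
    rw [inner_add_right, inner_add_right]
    push_cast
    have e1 : Complex.exp ((Real.pi : ℂ) * (n : ℂ) * (inner ℂ ω x + inner ℂ ω lam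
        + (‖ω‖ : ℂ) ^ 2 / 2)) * Complex.exp (-((Real.pi : ℂ) * (n : ℂ)) *
          (inner ℂ lam x + inner ℂ lam ω)) =
        Complex.exp ((Real.pi : ℂ) * (n : ℂ) * (inner ℂ ω lam - inner ℂ lam ω)) *
        Complex.exp ((Real.pi : ℂ) * (n : ℂ) * (inner ℂ ω x + (‖ω‖ : ℂ) ^ 2 / 2)) *
        Complex.exp (-((Real.pi : ℂ) * (n : ℂ)) * inner ℂ lam x) := by
      rw [← Complex.exp_add, ← Complex.exp_add, ← Complex.exp_add]
      congr 1
      ring
    linear_combination (χ ω ^ n * f (x + lam)) * e1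
  · intro x
    show ‖f (x + lam) * Complex.exp (-((Real.pi : ℂ) * (n : ℂ)) * inner ℂ lam x)‖ ≤ _
    rw [norm_mul, Complex.norm_exp]
    have h1 : (-((Real.pi : ℂ) * (n : ℂ)) * inner ℂ lam x).re
        = -(Real.pi * (n : ℝ)) * (inner ℂ lam x : ℂ).re := by
      have h2 : (-((Real.pi : ℂ) * (n : ℂ))) = ((-(Real.pi * (n : ℝ)) : ℝ) : ℂ) := by push_cast; ring
      rw [h2, Complex.re_ofReal_mul]
    have h3 : ‖x + lam‖ ^ 2 = ‖x‖ ^ 2 + 2 * (inner ℂ lam x : ℂ).re + ‖lam‖ ^ 2 := by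
      have h4 := @norm_add_sq ℂ V _ _ _ x lam
      rw [h4]
      have h5 : RCLike.re (inner ℂ x lam : ℂ) = (inner ℂ lam x : ℂ).re := by
        rw [← inner_conj_symm]
        exact Complex.conj_re _
      rw [h5]
    calc ‖f (x + lam)‖ * Real.exp ((-((Real.pi : ℂ) * (n : ℂ)) * inner ℂ lam x).re)
        ≤ (C * Real.exp (Real.pi * n / 2 * ‖x + lam‖ ^ 2)) *
          Real.exp ((-((Real.pi : ℂ) * (n : ℂ)) * inner ℂ lam x).re) :=
          mul_le_mul_of_nonneg_right (hCf _) (Real.exp_pos _).le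
      _ = C * Real.exp (Real.pi * n / 2 * ‖lam‖ ^ 2) * Real.exp (Real.pi * n / 2 * ‖x‖ ^ 2) := by
          rw [mul_assoc, mul_assoc, ← Real.exp_add, ← Real.exp_add, h1, h3]
          congr 2
          ring
  · intro hl v
    have h1 := fderiv_mul (hF 0) (hE 0)
    have h2 : fderiv ℂ (fun x : V => f (x + lam)) 0 = fderiv ℂ f lam := by
      rw [fderiv_comp_add_right, zero_add]
    have h3 : fderiv ℂ (fun x => f (x + lam) * Complex.exp (-((Real.pi : ℂ) * (n : ℂ)) *
        inner ℂ lam x)) 0 v = (f (0 + lam) • fderiv ℂ (fun x : V =>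
          Complex.exp (-((Real.pi : ℂ) * (n : ℂ)) * inner ℂ lam x)) 0 +
        Complex.exp (-((Real.pi : ℂ) * (n : ℂ)) * inner ℂ lam (0 : V)) •
          fderiv ℂ (fun x : V => f (x + lam)) 0) v := by
      rw [← h1]
      rfl
    rw [h3, h2, zero_add, hl, inner_zero_right, mul_zero, Complex.exp_zero]
    simp

end Pool.Agent.ZES.H76
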